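import Pool.Agent.H.MP_0da53c_lc.F

namespace Pool.Agent.Results.MP_0da53c_lc.Yes

open FirstOrder FirstOrder.Language Pool.Agent.H.MP_ba14eb_lc Pool.Agent.H.MP_0da53c_lc

theorem result :
    ∃ L : FirstOrder.Language.{0, 0}, Countable L.Symbols ∧
      ∃ T : L.Theory, T.IsComplete ∧ (∃ n : ℕ, Axz true n T) ∧
        (∀ (N : Type) [L.Structure N] [Nonempty N], N ⊨ T → ∀ B : Set N, B.Countable →
          Countable ((L[[B]].completeTheory N).CompleteType (Fin 1))) ∧
        ∃ (m : ℕ) (p : T.CompleteType (Fin m)), ∀ n : ℕ, ¬ Axz true n p.toTheory :=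
  ⟨LL, inferInstance, LL.completeTheory El, completeTheory.isComplete _ _, ⟨2, axz_T⟩,
    stable, unbounded⟩

end Pool.Agent.Results.MP_0da53c_lc.Yes
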